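import Pool.Agent.H.MP_69260a_co.A

namespace Pool.Agent.H.MP_08245e_co

open Finset SimpleGraph Matrix Pool.Agent.H.MP_69260a_co
open scoped symmDiff

abbrev S := Finset (Fin 16)

/-- induced subgraph of the halved cube -/
def hg (F : Finset S) : SimpleGraph F where
  Adj x y := (x.1 ∆ y.1).card = 2
  symm := ⟨fun x y h => by rwa [symmDiff_comm]⟩
  loopless := ⟨fun x h => by simp at h⟩

lemma tri (x y z : S) : (x ∆ z).card ≤ (x ∆ y).card + (y ∆ z).card :=
  (card_le_card (symmDiff_triangle x y z)).trans (card_union_le _ _)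

def Iso (F : Finset S) : Prop :=
  (∀ x ∈ F, ∀ y ∈ F, (x ∆ y).card % 2 = 0) ∧
    ∀ x ∈ F, ∀ y ∈ F, y ≠ x → ∃ z ∈ F, (z ∆ y).card = 2 ∧ (x ∆ z).card + 2 = (x ∆ y).card

lemma Iso.cert {F : Finset S} (h : Iso F) : Cert (hg F) (fun x y => (x.1 ∆ y.1).card / 2) := by
  refine ⟨fun u => by simp, fun u v w a => ?_, fun u v a => ?_⟩
  · have := tri u.1 v.1 w.1
    have a' : (v.1 ∆ w.1).card = 2 := a
    simp only; omega
  · obtain ⟨z, hz, h1, h2⟩ := h.2 u.1 u.2 v.1 v.2 (fun e => a (Subtype.ext e))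
    exact ⟨⟨z, hz⟩, h1, by simp only; omega⟩

def ch (x : S) (i : Fin 16) : ℤ := if i ∈ x then -1 else 1

lemma ch_sd (x y : S) (i : Fin 16) : ch (x ∆ y) i = ch x i * ch y i := by
  unfold ch; by_cases a : i ∈ x <;> by_cases b : i ∈ y <;> simp [mem_symmDiff, a, b]

lemma ch_sum (x : S) : ∑ i, ch x i = 16 - 2 * x.card := by
  have : ∀ i, ch x i = 1 - 2 * (if i ∈ x then 1 else 0) := fun i => by
    unfold ch; split_ifs <;> simp
  simp only [this, sum_sub_distrib, ← mul_sum]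
  simp

noncomputable def qq (m : ℕ) (N : ℝ) : Polynomial ℝ :=
  (Polynomial.X ^ m - (4 * N : ℝ) • Polynomial.X ^ (m - 1) : Polynomial ℝ).comp
    (Polynomial.X + Polynomial.C (N / 4 : ℝ))

lemma gen {V ι : Type} [Fintype V] [DecidableEq V] [Fintype ι] [DecidableEq ι] (D : Matrix V V ℝ)
    (A : Matrix V ι ℝ) (u : ι → ℝ) (hA : A *ᵥ u = fun _ => 1) (hn : u ⬝ᵥ u = 1) (N : ℝ)
    (h2 : Aᵀ * A = scalar ι N) (hD : ∀ x y, D x y = 4 - (1 / 4) * ∑ i, A x i * A y i) :
    Polynomial.X ^ Fintype.card ι * D.charpoly =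
      Polynomial.X ^ Fintype.card V * qq (Fintype.card ι) N := by
  let M : Matrix ι ι ℝ := vecMulVec ((4 : ℝ) • u) u - scalar ι (1 / 4 : ℝ)
  have h1 : D = A * (M * Aᵀ) := by
    have e : A * (M * Aᵀ) = vecMulVec (fun _ => (4 : ℝ)) (fun _ => 1) - (1 / 4 : ℝ) • (A * Aᵀ) := by
      simp only [M, Matrix.sub_mul, Matrix.mul_sub, vecMulVec_mul, mul_vecMulVec, vecMul_transpose,
        mulVec_smul, hA, scalar_apply, ← smul_eq_diagonal_mul, Matrix.mul_smul]
      congr 2; ext; simp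
    rw [e]
    ext x y
    simp [hD, vecMulVec_apply, mul_apply]
  have h3 : (M * Aᵀ) * A = vecMulVec ((4 * N : ℝ) • u) u - scalar ι (N / 4 : ℝ) := by
    rw [Matrix.mul_assoc, h2]
    ext i j
    simp only [M, scalar_apply, mul_diagonal, Matrix.sub_apply, vecMulVec_apply, diagonal_apply,
      Pi.smul_apply, smul_eq_mul]
    split_ifs <;> ring
  rw [h1, charpoly_mul_comm', h3, charpoly_sub_scalar, charpoly_vecMulVec, smul_dotProduct, hn,
    smul_eq_mul, mul_one, qq]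

lemma spec {F : Finset S} (h : Iso F) (u : Fin 16 → ℝ) (hu : ∀ x ∈ F, ∑ i, (ch x i : ℝ) * u i = 1)
    (hn : u ⬝ᵥ u = 1) (N : ℤ)
    (ho : ∀ i j, ∑ x ∈ F, ch x i * ch x j = if i = j then N else 0) :
    Polynomial.X ^ Fintype.card (Fin 16) * (distMat (hg F)).charpoly =
      Polynomial.X ^ Fintype.card F * qq (Fintype.card (Fin 16)) N := by
  refine gen _ (Matrix.of fun x i => (ch x.1 i : ℝ)) u ?_ hn N ?_ ?_
  · ext x; exact hu x.1 x.2
  · ext i j
    simp only [mul_apply, transpose_apply, of_apply, scalar_apply, diagonal_apply]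
    rw [sum_coe_sort F (fun x => (ch x i : ℝ) * ch x j)]
    exact_mod_cast ho i j
  · intro x y
    have k : ∑ i, (ch x.1 i : ℝ) * ch y.1 i = 16 - 2 * ((x.1 ∆ y.1).card : ℝ) := by
      have := ch_sum (x.1 ∆ y.1)
      simp only [ch_sd] at this
      exact_mod_cast this
    have k2 : (((x.1 ∆ y.1).card / 2 : ℕ) : ℝ) * 2 = (x.1 ∆ y.1).card := by
      have := h.1 _ x.2 _ y.2
      exact_mod_cast (by omega : (x.1 ∆ y.1).card / 2 * 2 = (x.1 ∆ y.1).card)
    simp only [distMat, of_apply, (h.cert.dist _ _).2, k]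
    linarith

lemma card_flip (s : S) {a b : Fin 16} (h : a ≠ b) :
    ((s ∆ {a, b}).card : ℤ) = s.card + ch s a + ch s b := by
  have h1 := ch_sum (s ∆ {a, b})
  have h2 := ch_sum s
  have h3 : ∀ i, ch (s ∆ {a, b}) i = ch s i - 2 * (if i = a then ch s a else 0)
      - 2 * (if i = b then ch s b else 0) := fun i => by
    rw [ch_sd]
    by_cases e : i = a
    · subst e; simp [ch, h]; split_ifs <;> ring
    · by_cases f : i = b
      · subst f; simp [ch, e]; split_ifs <;> ring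
      · simp [ch, e, f]
  simp only [h3, sum_sub_distrib, ← mul_sum, sum_ite_eq', mem_univ, if_true] at h1
  omega

/-- distance-regularity -/
def IsDRG {V : Type} (G : SimpleGraph V) : Prop :=
  G.Connected ∧ ∃ b c : ℕ → ℕ, ∀ x y : V,
    {z | G.Adj y z ∧ G.dist x z + 1 = G.dist x y}.ncard = c (G.dist x y) ∧
      {z | G.Adj y z ∧ G.dist x z = G.dist x y + 1}.ncard = b (G.dist x y)

end Pool.Agent.H.MP_08245e_co
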