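import Pool.Agent.H.MP_08245e_co.A

namespace Pool.Agent.H.MP_08245e_co

open Finset SimpleGraph Matrix Pool.Agent.H.MP_69260a_co
open scoped symmDiff

def FJ : Finset S := powersetCard 6 univ

lemma mFJ {x : S} : x ∈ FJ ↔ x.card = 6 := by simp [FJ]

lemma cFJ : FJ.card = 8008 := by simp [FJ]; decide +kernel

lemma sd_card {x y : S} (hx : x.card = 6) (hy : y.card = 6) :
    (x ∆ y).card = 2 * (y \ x).card ∧ (x \ y).card = (y \ x).card := by
  have h1 := card_sdiff_add_card_inter x y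
  have h2 := card_sdiff_add_card_inter y x
  rw [inter_comm] at h2
  have h3 : (x ∆ y).card = (x \ y).card + (y \ x).card := by
    rw [symmDiff_def]; exact card_union_of_disjoint disjoint_sdiff_sdiff
  omega

lemma flip_mem {y : S} (hy : y.card = 6) {a b : Fin 16} (ha : a ∈ y) (hb : b ∉ y) :
    (y ∆ {a, b}).card = 6 := by
  have := card_flip y (show a ≠ b from fun e => hb (e ▸ ha))
  simp only [ch, ha, hb, if_true, if_false] at this
  omega

lemma isoJ : Iso FJ := by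
  refine ⟨fun x hx y hy => by have := (sd_card (mFJ.1 hx) (mFJ.1 hy)).1; omega,
    fun x hx y hy ne => ?_⟩
  have hx := mFJ.1 hx
  have hy := mFJ.1 hy
  obtain ⟨h1, h2⟩ := sd_card hx hy
  have p : 0 < (y \ x).card := by
    by_contra q
    have : x ∆ y = ∅ := card_eq_zero.1 (by omega)
    exact ne (symmDiff_eq_bot.1 this).symm
  obtain ⟨a, ha⟩ := card_pos.1 p
  obtain ⟨b, hb⟩ := card_pos.1 (h2 ▸ p : 0 < (x \ y).card)
  rw [mem_sdiff] at ha hb
  have ab : a ≠ b := fun e => hb.2 (e ▸ ha.1)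
  refine ⟨y ∆ {a, b}, mFJ.2 (flip_mem hy ha.1 hb.2), ?_, ?_⟩
  · rw [symmDiff_comm, symmDiff_symmDiff_cancel_left, card_pair ab]
  · have := card_flip (x ∆ y) ab
    rw [symmDiff_assoc] at this
    simp only [ch, mem_symmDiff, ha.1, ha.2, hb.1, hb.2] at this
    simp at this
    omega

lemma cnt (y : FJ) (Q : S → Prop) [DecidablePred Q] :
    {z : FJ | (hg FJ).Adj y z ∧ Q z.1}.ncard =
      ((y.1 ×ˢ y.1ᶜ).filter (fun p => Q (y.1 ∆ {p.1, p.2}))).card := by
  have hy := mFJ.1 y.2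
  rw [← Set.ncard_coe_finset]
  symm
  refine Set.ncard_congr (fun p hp => ⟨y.1 ∆ {p.1, p.2}, mFJ.2 ?_⟩) ?_ ?_ ?_
  · simp only [coe_filter, mem_product, mem_compl, Set.mem_setOf_eq] at hp
    exact flip_mem hy hp.1.1 hp.1.2
  · intro p hp
    simp only [coe_filter, mem_product, mem_compl, Set.mem_setOf_eq] at hp
    refine ⟨?_, hp.2⟩
    show (y.1 ∆ (y.1 ∆ {p.1, p.2})).card = 2
    rw [symmDiff_symmDiff_cancel_left, card_pair (fun e : p.1 = p.2 => hp.1.2 (e ▸ hp.1.1))]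
  · rintro ⟨a, b⟩ ⟨c, d⟩ hp hq e
    simp only [coe_filter, mem_product, mem_compl, Set.mem_setOf_eq] at hp hq
    have e' : ({a, b} : S) = {c, d} := symmDiff_right_injective _ (congrArg Subtype.val e)
    have h1 : a ∈ ({c, d} : S) := e' ▸ by simp
    have h2 : b ∈ ({c, d} : S) := e' ▸ by simp
    simp only [mem_insert, mem_singleton] at h1 h2
    rcases h1 with h1 | h1
    · rcases h2 with h2 | h2
      · exact absurd (h2 ▸ hq.1.1) hp.1.2
      · rw [h1, h2]
    · exact absurd (h1 ▸ hp.1.1) hq.1.2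
  · rintro z ⟨h1, h2⟩
    have h1 : (y.1 ∆ z.1).card = 2 := h1
    obtain ⟨k1, k2⟩ := sd_card hy (mFJ.1 z.2)
    obtain ⟨a, ha⟩ := card_eq_one.1 (show (y.1 \ z.1).card = 1 by omega)
    obtain ⟨b, hb⟩ := card_eq_one.1 (show (z.1 \ y.1).card = 1 by omega)
    have e : y.1 ∆ {a, b} = z.1 := by
      have : y.1 ∆ z.1 = {a, b} := by rw [symmDiff_def, ha, hb]; rfl
      rw [← this, symmDiff_symmDiff_cancel_left]
    have a1 : a ∈ y.1 \ z.1 := ha ▸ mem_singleton_self a
    have b1 : b ∈ z.1 \ y.1 := hb ▸ mem_singleton_self b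
    rw [mem_sdiff] at a1 b1
    refine ⟨(a, b), ?_, Subtype.ext e⟩
    simp only [coe_filter, mem_product, mem_compl, Set.mem_setOf_eq]
    exact ⟨⟨a1.1, b1.2⟩, e ▸ h2⟩

lemma drgJ : IsDRG (hg FJ) := by
  have hne : Nonempty FJ := by
    have : 0 < FJ.card := by rw [cFJ]; norm_num
    obtain ⟨x, hx⟩ := card_pos.1 this
    exact ⟨⟨x, hx⟩⟩
  refine ⟨⟨fun u v => (isoJ.cert.dist u v).1⟩, fun i => (6 - i) * (10 - i), fun i => i * i,
    fun x y => ?_⟩
  have hx := mFJ.1 x.2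
  have hy := mFJ.1 y.2
  obtain ⟨h1, h2⟩ := sd_card hx hy
  simp only [(isoJ.cert.dist _ _).2]
  have key : ∀ a ∈ y.1, ∀ b ∉ y.1, ((x.1 ∆ (y.1 ∆ {a, b})).card : ℤ) =
      (x.1 ∆ y.1).card + (if a ∈ x.1 then 1 else -1) + (if b ∈ x.1 then -1 else 1) := by
    intro a ha b hb
    rw [← symmDiff_assoc, card_flip _ (show a ≠ b from fun e => hb (e ▸ ha))]
    simp only [ch, mem_symmDiff, ha, hb]
    by_cases p : a ∈ x.1 <;> by_cases q : b ∈ x.1 <;> simp [p, q]
  constructor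
  · rw [cnt y (fun z => (x.1 ∆ z).card / 2 + 1 = (x.1 ∆ y.1).card / 2)]
    have : (y.1 ×ˢ y.1ᶜ).filter (fun p => (x.1 ∆ (y.1 ∆ {p.1, p.2})).card / 2 + 1 =
        (x.1 ∆ y.1).card / 2) = (y.1 \ x.1) ×ˢ (x.1 \ y.1) := by
      ext ⟨a, b⟩
      simp only [mem_filter, mem_product, mem_compl, mem_sdiff]
      by_cases ha : a ∈ y.1
      · by_cases hb : b ∈ y.1
        · simp [hb]
        · have := key a ha b hb
          by_cases p : a ∈ x.1 <;> by_cases q : b ∈ x.1 <;> simp [p, q, ha, hb] at this ⊢ <;> omega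
      · simp [ha]
    rw [this, card_product, h2, h1]; simp
  · rw [cnt y (fun z => (x.1 ∆ z).card / 2 = (x.1 ∆ y.1).card / 2 + 1)]
    have : (y.1 ×ˢ y.1ᶜ).filter (fun p => (x.1 ∆ (y.1 ∆ {p.1, p.2})).card / 2 =
        (x.1 ∆ y.1).card / 2 + 1) = (y.1 \ (y.1 \ x.1)) ×ˢ (y.1ᶜ \ (x.1 \ y.1)) := by
      ext ⟨a, b⟩
      simp only [mem_filter, mem_product, mem_compl, mem_sdiff]
      by_cases ha : a ∈ y.1
      · by_cases hb : b ∈ y.1
        · simp [hb]
        · have := key a ha b hb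
          by_cases p : a ∈ x.1 <;> by_cases q : b ∈ x.1 <;> simp [p, q, ha, hb] at this ⊢ <;> omega
      · simp [ha]
    rw [this, card_product, card_sdiff_of_subset sdiff_subset,
      card_sdiff_of_subset (fun t ht => mem_compl.2 (mem_sdiff.1 ht).2), card_compl, h2, h1, hy]
    simp

lemma cntJ (s : S) (h : s.card ≤ 6) :
    ∑ x ∈ FJ, (if s ⊆ x then (1 : ℤ) else 0) = Nat.choose (16 - s.card) (6 - s.card) := by
  rw [sum_boole, FJ, card_filter_powersetCard_subset s univ 6 (subset_univ _) h]; simp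

lemma orthJ (i j : Fin 16) : ∑ x ∈ FJ, ch x i * ch x j = if i = j then 8008 else 0 := by
  split_ifs with e
  · subst e
    have : ∀ x : S, ch x i * ch x i = 1 := fun x => by unfold ch; split_ifs <;> simp
    simp [this, cFJ]
  · have : ∀ x : S, ch x i * ch x j = 1 - 2 * (if {i} ⊆ x then (1 : ℤ) else 0)
        - 2 * (if {j} ⊆ x then (1 : ℤ) else 0) + 4 * (if {i, j} ⊆ x then (1 : ℤ) else 0) := by
      intro x
      unfold ch
      by_cases a : i ∈ x <;> by_cases b : j ∈ x <;> simp [a, b, insert_subset_iff]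
    simp only [this, sum_add_distrib, sum_sub_distrib, ← mul_sum]
    rw [cntJ _ (by simp), cntJ _ (by simp), cntJ _ (by rw [card_pair e]; norm_num), card_pair e]
    simp only [sum_const, cFJ, card_singleton]
    decide +kernel

lemma specJ : Polynomial.X ^ Fintype.card (Fin 16) * (distMat (hg FJ)).charpoly =
    Polynomial.X ^ Fintype.card FJ * qq (Fintype.card (Fin 16)) (8008 : ℤ) := by
  refine spec isoJ (fun _ => 1 / 4) (fun x hx => ?_) (by simp [dotProduct]; norm_num) _ orthJ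
  have := ch_sum x
  rw [mFJ.1 hx] at this
  have h : ∑ i, (ch x i : ℝ) = 4 := by exact_mod_cast this
  rw [← sum_mul, h]; norm_num

end Pool.Agent.H.MP_08245e_co
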