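import Pool.Agent.H.MP_08245e_co.G
import Pool.Agent.H.MP_08245e_co.J

namespace Pool.Agent.H.MP_08245e_co

open Pool.Agent.H.MP_69260a_co

lemma canc (F F' : Finset S) (q : Polynomial ℝ) (n : ℕ) (e : F.card = F'.card)
    (h1 : Polynomial.X ^ n * (distMat (hg F)).charpoly = Polynomial.X ^ Fintype.card F * q)
    (h2 : Polynomial.X ^ n * (distMat (hg F')).charpoly = Polynomial.X ^ Fintype.card F' * q) :
    (distMat (hg F)).charpoly = (distMat (hg F')).charpoly := by
  rw [Fintype.card_coe] at h1 h2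
  rw [e, ← h2] at h1
  exact (Polynomial.isRegular_X_pow n).left h1

lemma cosp : (distMat (hg FJ)).charpoly = (distMat (hg FG)).charpoly :=
  canc FJ FG _ _ (cFJ.trans cFG.symm) specJ specG

lemma main : ∃ (V W : Type) (_ : Fintype V) (_ : DecidableEq V) (_ : Fintype W) (_ : DecidableEq W)
      (G : SimpleGraph V) (H : SimpleGraph W),
      IsDRG G ∧ H.Connected ∧ ¬ IsDRG H ∧ (distMat G).charpoly = (distMat H).charpoly :=
  ⟨FJ, FG, _, _, _, _, hg FJ, hg FG, drgJ, conG, notG, cosp⟩

end Pool.Agent.H.MP_08245e_co
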