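import Pool.Agent.H.MP_08245e_co.T

namespace Pool.Agent.H.MP_08245e_co

open Finset SimpleGraph Matrix Pool.Agent.H.MP_69260a_co
open scoped symmDiff

def toS (n : ℕ) : S := univ.filter (fun i : Fin 16 => n.testBit i = true)

lemma toS_xor (a b : ℕ) : toS (a ^^^ b) = toS a ∆ toS b := by
  ext i
  simp only [toS, mem_filter, mem_univ, true_and, mem_symmDiff, Nat.testBit_xor]
  cases a.testBit i <;> cases b.testBit i <;> simp

lemma toS_inj {a b : ℕ} (ha : a < 2 ^ 16) (hb : b < 2 ^ 16) (h : toS a = toS b) : a = b := by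
  refine Nat.eq_of_testBit_eq fun i => ?_
  by_cases hi : i < 16
  · have := congrArg (fun s => (⟨i, hi⟩ : Fin 16) ∈ s) h
    simpa [toS] using this
  · have : 2 ^ 16 ≤ 2 ^ i := Nat.pow_le_pow_right (by norm_num) (by omega)
    rw [Nat.testBit_lt_two_pow (ha.trans_le this), Nat.testBit_lt_two_pow (hb.trans_le this)]

lemma toS_pr : ∀ a b : Fin 16, a ≠ b → toS (pr a b) = {a, b} := by decide +kernel
lemma pr_lt : ∀ a b : Fin 16, pr a b < 2 ^ 16 := by decide +kernel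
lemma rr_lt (k : ℕ) : rr k < 2 ^ 16 := Nat.mod_lt _ (by norm_num)
lemma ch_toS (n : ℕ) (i : Fin 16) : ch (toS n) i = cb n i := by simp [ch, toS, cb]

def chi (T x : S) : ℤ := ∏ i ∈ T, ch x i

lemma chi_eq (T x : S) : chi T x = (-1) ^ (T ∩ x).card := by
  simp [chi, ch, prod_ite, filter_mem_eq_inter]

lemma chi_r (T x y : S) : chi T (x ∆ y) = chi T x * chi T y := by
  simp [chi, ch_sd, prod_mul_distrib]

lemma chi_l (T U x : S) : chi (T ∆ U) x = chi T x * chi U x := by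
  have c : ∀ a b : S, chi a b = chi b a := fun a b => by rw [chi_eq, chi_eq, inter_comm]
  rw [c, chi_r, c x, c x]

lemma chi_pm (T x : S) : chi T x = 1 ∨ chi T x = -1 := by
  rw [chi_eq]; exact neg_one_pow_eq_or ℤ _

lemma four (T : S) : ∑ x, chi T x = if T = ∅ then 65536 else 0 := by
  split_ifs with h
  · subst h; simp [chi]
  · obtain ⟨i, hi⟩ := nonempty_iff_ne_empty.2 h
    have k : chi T {i} = -1 := by rw [chi_eq, inter_singleton_of_mem hi]; simp
    refine sum_involution (fun x _ => x ∆ {i}) (fun x _ => by rw [chi_r, k]; ring)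
      (fun x _ _ e => ?_) (fun _ _ => mem_univ _) (fun x _ => by simp)
    simpa using e

def P0 : S := {0}
def P1 : S := {1, 2, 3}
def P2 : S := univ.filter (fun i : Fin 16 => 4 ≤ i.val)

def InC (x : S) : Prop := chi P0 x = 1 ∧ chi P1 x = 1 ∧ chi P2 x = 1

instance : DecidablePred InC := fun x => by unfold InC; infer_instance

lemma InC.sd {x y : S} (h : InC x) (k : InC y) : InC (x ∆ y) := by
  simp [InC, chi_r, h.1, h.2.1, h.2.2, k.1, k.2.1, k.2.2]

@[irreducible] def CC : Finset S := univ.filter InC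

lemma mCC {x : S} : x ∈ CC ↔ InC x := by simp [CC]

lemma sumC (T : S) : 8 * ∑ x ∈ CC, chi T x = ∑ x, chi T x + ∑ x, chi (T ∆ P0) x +
    ∑ x, chi (T ∆ P1) x + ∑ x, chi (T ∆ P2) x + ∑ x, chi (T ∆ P0 ∆ P1) x + ∑ x, chi (T ∆ P0 ∆ P2) x +
    ∑ x, chi (T ∆ P1 ∆ P2) x + ∑ x, chi (T ∆ P0 ∆ P1 ∆ P2) x := by
  simp only [← sum_add_distrib]
  rw [CC, sum_filter, mul_sum]
  refine sum_congr rfl fun x _ => ?_
  simp only [chi_l, InC]
  rcases chi_pm P0 x with a | a <;> rcases chi_pm P1 x with b | b <;>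
    rcases chi_pm P2 x with c | c <;> simp [a, b, c] <;> ring

lemma orthC (i j : Fin 16) : ∑ x ∈ CC, ch x i * ch x j = if i = j then 8192 else 0 := by
  have e : ∀ x : S, ch x i * ch x j = chi ({i} ∆ {j}) x := fun x => by rw [chi_l]; simp [chi]
  have h := sumC ({i} ∆ {j})
  simp only [four] at h
  simp only [e]
  have k : ∀ i j : Fin 16, ∀ T : S, T = {i} ∆ {j} → ((if T = ∅ then 65536 else 0) +
      (if T ∆ P0 = ∅ then 65536 else 0) + (if T ∆ P1 = ∅ then 65536 else 0) +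
      (if T ∆ P2 = ∅ then 65536 else 0) + (if T ∆ P0 ∆ P1 = ∅ then 65536 else 0) +
      (if T ∆ P0 ∆ P2 = ∅ then 65536 else 0) + (if T ∆ P1 ∆ P2 = ∅ then 65536 else 0) +
      (if T ∆ P0 ∆ P1 ∆ P2 = ∅ then 65536 else 0) : ℤ) = 8 * if i = j then 8192 else 0 := by
    intro i j T hT
    subst hT
    revert i j
    decide +kernel
  rw [k i j _ rfl] at h
  omega

@[irreducible] def RR : Finset S := univ.image (fun k : Fin 184 => toS (rr k))

lemma mRR {x : S} : x ∈ RR ↔ ∃ k : Fin 184, toS (rr k) = x := by simp [RR]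

set_option maxRecDepth 100000 in
lemma r_C : ∀ k : Fin 184, InC (toS (rr k)) := by decide +kernel

lemma orthR (i j : Fin 16) : ∑ x ∈ RR, ch x i * ch x j = if i = j then 184 else 0 := by
  rw [RR, sum_image (fun k _ l _ e => r_inj k l (toS_inj (rr_lt _) (rr_lt _) e)), ← r_orth', sm_eq]
  simp only [ch_toS]

@[irreducible] def FG : Finset S := CC \ RR

lemma mFG {x : S} : x ∈ FG ↔ InC x ∧ x ∉ RR := by rw [FG, mem_sdiff, mCC]

lemma orthG (i j : Fin 16) : ∑ x ∈ FG, ch x i * ch x j = if i = j then 8008 else 0 := by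
  have hs : RR ⊆ CC := fun x hx => by
    obtain ⟨k, rfl⟩ := mRR.1 hx
    exact mCC.2 (r_C k)
  have := sum_sdiff (f := fun x => ch x i * ch x j) hs
  rw [orthC, orthR] at this
  rw [FG]
  split_ifs at this ⊢ <;> omega

lemma cFG : FG.card = 8008 := by
  have := orthG 0 0
  have e : ∀ x : S, ch x 0 * ch x 0 = 1 := fun x => by unfold ch; split_ifs <;> simp
  simp only [e, sum_const, if_true, nsmul_eq_mul, mul_one] at this
  exact_mod_cast this

lemma bitR {n : ℕ} (hn : n < 2 ^ 16) (h : toS n ∈ RR) : MR.testBit n = true := by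
  obtain ⟨k, hk⟩ := mRR.1 h
  rw [← toS_inj (rr_lt _) hn hk]
  exact r_MR k

lemma InC.ev {s : S} (h : InC s) : 0 ∉ s ∧ (P1 ∩ s).card % 2 = 0 ∧ (P2 ∩ s).card % 2 = 0 ∧
    s.card = (P1 ∩ s).card + (P2 ∩ s).card := by
  obtain ⟨h0, h1, h2⟩ := h
  have k0 : 0 ∉ s := fun e => by simp [chi, P0, ch, e] at h0
  rw [chi_eq, neg_one_pow_eq_one_iff_even (by norm_num), Nat.even_iff] at h1 h2
  refine ⟨k0, h1, h2, ?_⟩
  rw [← card_union_of_disjoint (disjoint_of_subset_left inter_subset_left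
    (disjoint_of_subset_right inter_subset_left (by decide +kernel))), ← union_inter_distrib_right]
  congr 1
  symm
  rw [inter_eq_right]
  intro i hi
  have : ∀ i : Fin 16, i ≠ 0 → i ∈ P1 ∪ P2 := by decide +kernel
  exact this i fun e => k0 (e ▸ hi)

lemma pC : ∀ a b : Fin 16, a ≠ b → (a ∈ P1 ∧ b ∈ P1 ∨ a ∈ P2 ∧ b ∈ P2) → InC {a, b} := by
  decide +kernel
lemma mP1 : ∀ a : Fin 16, a ∈ P1 → 0 < a.val ∧ a.val < 4 := by decide +kernel
lemma mP2 : ∀ a : Fin 16, a ∈ P2 → 4 ≤ a.val := by decide +kernel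

lemma fullR {k : Fin 184} (hk : k.val < 160) {a b : Fin 16} (ha : a ∈ P1) (hb : b ∈ P1)
    (ab : a ≠ b) : toS (rr k) ∆ {a, b} ∈ RR := by
  rw [← toS_pr a b ab, ← toS_xor, mRR]
  rcases r_full k hk a b (mP1 a ha).1 (mP1 a ha).2 (mP1 b hb).1 (mP1 b hb).2 with h | h | h | h
  · exact ⟨⟨k.val / 4 * 4, by omega⟩, congrArg toS h⟩
  · exact ⟨⟨k.val / 4 * 4 + 1, by omega⟩, congrArg toS h⟩
  · exact ⟨⟨k.val / 4 * 4 + 2, by omega⟩, congrArg toS h⟩
  · exact ⟨⟨k.val / 4 * 4 + 3, by omega⟩, congrArg toS h⟩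

lemma isoG : Iso FG := by
  refine ⟨fun x hx y hy => ?_, fun x hx y hy ne => ?_⟩
  · obtain ⟨-, h1, h2, h3⟩ := ((mFG.1 hx).1.sd (mFG.1 hy).1).ev
    omega
  obtain ⟨h0, h1, h2, h3⟩ := ((mFG.1 hx).1.sd (mFG.1 hy).1).ev
  by_cases two : (x ∆ y).card = 2
  · exact ⟨x, hx, two, by simp [two]⟩
  by_contra hcon
  have step : ∀ a b : Fin 16, a ≠ b → (a ∈ P1 ∧ b ∈ P1 ∨ a ∈ P2 ∧ b ∈ P2) → a ∈ x ∆ y →
      b ∈ x ∆ y → y ∆ {a, b} ∈ RR := by
    intro a b ab hP ha hb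
    by_contra hR
    refine hcon ⟨y ∆ {a, b}, mFG.2 ⟨(mFG.1 hy).1.sd (pC a b ab hP), hR⟩, ?_, ?_⟩
    · rw [symmDiff_comm, symmDiff_symmDiff_cancel_left, card_pair ab]
    · have := card_flip (x ∆ y) ab
      rw [symmDiff_assoc] at this
      simp only [ch, ha, hb, if_true] at this
      omega
  by_cases big : 2 < (P2 ∩ x ∆ y).card
  · obtain ⟨a, b, c, ha, hb, hc, ab, ac, bc⟩ := two_lt_card_iff.1 big
    rw [mem_inter] at ha hb hc
    obtain ⟨k, hk⟩ := mRR.1 (step a c ac (Or.inr ⟨ha.1, hc.1⟩) ha.2 hc.2)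
    have e1 : toS (rr k ^^^ pr a b) = y ∆ {b, c} := by
      rw [toS_xor, hk, toS_pr a b ab, symmDiff_assoc]
      congr 1
      ext t; simp only [mem_symmDiff, mem_insert, mem_singleton]; grind
    have e2 : toS (rr k ^^^ pr c b) = y ∆ {a, b} := by
      rw [toS_xor, hk, toS_pr c b bc.symm, symmDiff_assoc]
      congr 1
      ext t; simp only [mem_symmDiff, mem_insert, mem_singleton]; grind
    have b1 := bitR (Nat.xor_lt_two_pow (rr_lt k) (pr_lt a b))
      (e1 ▸ step b c bc (Or.inr ⟨hb.1, hc.1⟩) hb.2 hc.2)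
    have b2 := bitR (Nat.xor_lt_two_pow (rr_lt k) (pr_lt c b))
      (e2 ▸ step a b ab (Or.inr ⟨ha.1, hb.1⟩) ha.2 hb.2)
    rw [r_tri k a b (mP2 a ha.1) (mP2 b hb.1) ab b1 c (mP2 c hc.1) ac.symm bc.symm] at b2
    exact absurd b2 (by simp)
  · have l1 : (P1 ∩ x ∆ y).card ≤ 3 := (card_le_card inter_subset_left).trans (by decide)
    have nz : (x ∆ y).card ≠ 0 := fun e => ne (symmDiff_eq_bot.1 (card_eq_zero.1 e)).symm
    obtain ⟨a, b, ab, e1⟩ := card_eq_two.1 (show (P1 ∩ x ∆ y).card = 2 by omega)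
    obtain ⟨c, d, cd, e2⟩ := card_eq_two.1 (show (P2 ∩ x ∆ y).card = 2 by omega)
    have ha : a ∈ P1 ∩ x ∆ y := e1 ▸ by simp
    have hb : b ∈ P1 ∩ x ∆ y := e1 ▸ by simp
    have hc : c ∈ P2 ∩ x ∆ y := e2 ▸ by simp
    have hd : d ∈ P2 ∩ x ∆ y := e2 ▸ by simp
    rw [mem_inter] at ha hb hc hd
    have es : x ∆ y = {a, b} ∆ {c, d} := by
      rw [← e1, ← e2]
      ext t
      have : ∀ i : Fin 16, (i ∈ P1 → i ∉ P2) ∧ (i ≠ 0 → i ∈ P1 ∨ i ∈ P2) := by decide +kernel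
      have := this t
      rw [mem_symmDiff (s := P1 ∩ x ∆ y), mem_inter, mem_inter]
      grind
    obtain ⟨k, hk⟩ := mRR.1 (step a b ab (Or.inl ⟨ha.1, hb.1⟩) ha.2 hb.2)
    obtain ⟨l, hl⟩ := mRR.1 (step c d cd (Or.inr ⟨hc.1, hd.1⟩) hc.2 hd.2)
    by_cases k1 : k.val < 160
    · have := fullR k1 ha.1 hb.1 ab
      rw [hk, symmDiff_assoc, symmDiff_self, symmDiff_bot] at this
      exact (mFG.1 hy).2 this
    by_cases l1 : l.val < 160
    · have := fullR l1 ha.1 hb.1 ab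
      rw [hl, symmDiff_assoc, symmDiff_comm ({c, d} : S), ← es, symmDiff_comm x,
        symmDiff_symmDiff_cancel_left] at this
      exact (mFG.1 hx).2 this
    have e : toS (rr l) = toS (rr k ^^^ (pr a b ^^^ pr c d)) := by
      rw [toS_xor, toS_xor, hk, hl, toS_pr a b ab, toS_pr c d cd, symmDiff_assoc,
        symmDiff_symmDiff_cancel_left]
    have e' := toS_inj (rr_lt _)
      (Nat.xor_lt_two_pow (rr_lt k) (Nat.xor_lt_two_pow (pr_lt a b) (pr_lt c d))) e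
    have b1 := r_MB l (by omega)
    rw [e', r_B k (by omega) a b (mP1 a ha.1).2 (mP1 b hb.1).2 c d (mP2 c hc.1) (mP2 d hd.1) cd] at b1
    exact absurd b1 (by simp)

lemma specG : Polynomial.X ^ Fintype.card (Fin 16) * (distMat (hg FG)).charpoly =
    Polynomial.X ^ Fintype.card FG * qq (Fintype.card (Fin 16)) (8008 : ℤ) := by
  refine spec isoG (Pi.single 0 1) (fun x hx => ?_) (by simp) _ orthG
  have := (mFG.1 hx).1.ev.1
  simp [Pi.single_apply, ch, this]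

set_option maxRecDepth 100000 in
lemma memG : ∀ n ∈ [0, 54, 240, 48, 80, 144], n < 2 ^ 16 ∧ InC (toS n) ∧ MR.testBit n = false := by
  decide +kernel

lemma memG' (n : ℕ) (h : n ∈ [0, 54, 240, 48, 80, 144]) : toS n ∈ FG :=
  mFG.2 ⟨(memG n h).2.1, fun e => by
    have := bitR (memG n h).1 e
    rw [(memG n h).2.2] at this
    exact absurd this (by simp)⟩

lemma conG : (hg FG).Connected := by
  have : Nonempty FG := ⟨⟨_, memG' 0 (by simp)⟩⟩
  exact ⟨fun u v => (isoG.cert.dist u v).1⟩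

lemma notG : ¬ IsDRG (hg FG) := by
  rintro ⟨-, b, c, h⟩
  have h1 := (h ⟨_, memG' 54 (by simp)⟩ ⟨_, memG' 0 (by simp)⟩).1
  have h2 := (h ⟨_, memG' 240 (by simp)⟩ ⟨_, memG' 0 (by simp)⟩).1
  simp only [(isoG.cert.dist _ _).2] at h1 h2
  have e1 : (toS 54 ∆ toS 0).card / 2 = 2 := by decide +kernel
  have e2 : (toS 240 ∆ toS 0).card / 2 = 2 := by decide +kernel
  rw [e1] at h1
  rw [e2] at h2
  have k : 2 < c 2 := by
    rw [← h2, Set.two_lt_ncard_iff]
    refine ⟨⟨_, memG' 48 (by simp)⟩, ⟨_, memG' 80 (by simp)⟩, ⟨_, memG' 144 (by simp)⟩,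
      ⟨?_, ?_⟩, ⟨?_, ?_⟩, ⟨?_, ?_⟩, ?_, ?_, ?_⟩
    · show (toS 0 ∆ toS 48).card = 2
      decide +kernel
    · show (toS 240 ∆ toS 48).card / 2 + 1 = 2
      decide +kernel
    · show (toS 0 ∆ toS 80).card = 2
      decide +kernel
    · show (toS 240 ∆ toS 80).card / 2 + 1 = 2
      decide +kernel
    · show (toS 0 ∆ toS 144).card = 2
      decide +kernel
    · show (toS 240 ∆ toS 144).card / 2 + 1 = 2
      decide +kernel
    all_goals exact fun e => absurd (congrArg Subtype.val e) (by simp only; decide +kernel)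
  rw [← h1, Set.two_lt_ncard_iff] at k
  have q : ∀ z : FG, (hg FG).Adj ⟨_, memG' 0 (by simp)⟩ z → (toS 54 ∆ z.1).card / 2 + 1 = 2 →
      z.1 = toS 6 ∨ z.1 = toS 48 := by
    intro z a1 a2
    have a1 : (toS 0 ∆ z.1).card = 2 := a1
    have z0 : toS 0 = ⊥ := by decide +kernel
    rw [z0, bot_symmDiff] at a1
    obtain ⟨a, b, ab, e⟩ := card_eq_two.1 a1
    have hz := (mFG.1 z.2).1
    rw [e] at hz a2 ⊢
    have : ∀ a b : Fin 16, InC {a, b} → (toS 54 ∆ {a, b}).card / 2 + 1 = 2 → a ≠ b →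
        ({a, b} : S) = toS 6 ∨ ({a, b} : S) = toS 48 := by decide +kernel
    exact this a b hz a2 ab
  obtain ⟨u, v, w, hu, hv, hw, uv, uw, vw⟩ := k
  have a1 := q u hu.1 hu.2
  have a2 := q v hv.1 hv.2
  have a3 := q w hw.1 hw.2
  rw [Ne, Subtype.ext_iff] at uv uw vw
  grind

end Pool.Agent.H.MP_08245e_co
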